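import Mathlib

/-!
Finite graphs as spaces, configuration spaces, sequential topological complexity.
-/

set_option autoImplicit false

namespace Pool.Agent.MP_10b04c_gt

open unitInterval

/-- The space of the graph with vertices `Fin n`, edges `Fin m` and end points `src`, `tgt`:
one copy of `[0,1]` for each edge, with `0` glued to the source and `1` glued to the target. -/
abbrev GraphSpace {n m : ℕ} (src tgt : Fin m → Fin n) : Type :=
  Quot fun a b : Fin n ⊕ (Fin m × I) =>
    ∃ e, (a = .inr (e, 0) ∧ b = .inl (src e)) ∨ (a = .inr (e, 1) ∧ b = .inl (tgt e))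

/-- The unordered configuration space: injective `k`-tuples modulo permutations. -/
abbrev UConf (k : ℕ) (X : Type) : Type :=
  Quot fun x y : {x : Fin k → X // Function.Injective x} =>
    ∃ g : Equiv.Perm (Fin k), y.1 = x.1 ∘ g

/-- Reduced Lusternik-Schnirelmann category. -/
noncomputable def LSCat (X : Type) [TopologicalSpace X] : ℕ∞ :=
  ⨅ (n : ℕ) (_ : ∃ U : Fin (n + 1) → Set X, (∀ i, IsOpen (U i)) ∧ (⋃ i, U i) = Set.univ ∧
    ∀ i, ((ContinuousMap.id X).restrict (U i)).Nullhomotopic), (n : ℕ∞)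

/-- Reduced sequential topological complexity; the category for `r = 1`. -/
noncomputable def TC (r : ℕ) (X : Type) [TopologicalSpace X] : ℕ∞ :=
  if r = 1 then LSCat X else
    ⨅ (n : ℕ) (_ : ∃ U : Fin (n + 1) → Set (Fin r → X), (∀ i, IsOpen (U i)) ∧
      (⋃ i, U i) = Set.univ ∧ ∀ i, ∃ s : C(U i, C(I, X)),
        ∀ (x : U i) (j : Fin r) (t : I), (t : ℝ) = (j : ℝ) / ((r : ℝ) - 1) → s x t = x.1 j),
      (n : ℕ∞)

end Pool.Agent.MP_10b04c_gt
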